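import Mathlib

set_option autoImplicit false

namespace Pool.Agent.Results.MP_2d7e0f_pr.Attained

open Finset Filter Topology MeasureTheory unitInterval

/-- The `C`-volume of the box `[u, v]`; `T` is the set of coordinates taking the lower endpoint. -/
def vol {n : ℕ} (C : (Fin n → I) → ℝ) (u v : Fin n → I) : ℝ :=
  ∑ T : Finset (Fin n), (-1) ^ T.card * C (fun k => if k ∈ T then u k else v k)

/-- `n`-copulas -/
structure IsCopula {n : ℕ} (C : (Fin n → I) → ℝ) : Prop where
  range : ∀ x, 0 ≤ C x ∧ C x ≤ 1
  grounded : ∀ x k, x k = 0 → C x = 0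
  margin : ∀ x k, (∀ j, j ≠ k → x j = 1) → C x = x k
  incr : ∀ u v, u ≤ v → 0 ≤ vol C u v

/-- the lower Fréchet bound -/
def W {n : ℕ} (x : Fin n → I) : ℝ := max (∑ k, (x k : ℝ) - n + 1) 0

/-- the supremum `s_n` -/
noncomputable def s (n : ℕ) : ℝ :=
  sSup {r | ∃ A : Set (Fin n → I), MeasurableSet A ∧ (∃ C, IsCopula C ∧ ∀ x ∈ A, C x = W x) ∧
    r = (volume A).toReal}

variable {n : ℕ} {C : (Fin n → I) → ℝ}

theorem vol_red (h : IsCopula C) (u v : Fin n → I) (J : Finset (Fin n)) (hu : ∀ k, k ∉ J → u k = 0) :
    vol C u v = ∑ T ∈ J.powerset, (-1) ^ T.card * C (fun k => if k ∈ T then u k else v k) := by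
  refine (sum_subset (subset_univ _) (fun T _ hT => ?_)).symm
  rw [mem_powerset, not_subset] at hT
  obtain ⟨k, h1, h2⟩ := hT
  rw [h.grounded _ k (by simp [h1, hu k h2]), mul_zero]

theorem one_coord (h : IsCopula C) (x : Fin n → I) (j : Fin n) (a b : I) (hab : a ≤ b) :
    C (Function.update x j a) ≤ C (Function.update x j b) := by
  have h1 := h.incr (fun k => if k = j then a else 0) (Function.update x j b) (fun k => by
    by_cases hk : k = j
    · subst hk; simpa
    · simp [hk])
  rw [vol_red h _ _ {j} (fun k hk => by simp_all), ← insert_empty_eq,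
    sum_powerset_insert (by simp)] at h1
  simp only [powerset_empty, sum_singleton, insert_empty_eq, mem_singleton, notMem_empty,
    if_false, card_empty, card_singleton] at h1
  have e : (fun k => if k = j then (if k = j then a else 0) else Function.update x j b k) =
      Function.update x j a := by
    funext k; by_cases hk : k = j
    · subst hk; simp
    · simp [hk]
  rw [e] at h1
  linarith

theorem two_coord (h : IsCopula C) (x : Fin n → I) (i j : Fin n) (hij : i ≠ j) (a b : I)
    (hab : a ≤ b) :
    C (Function.update x j b) - C (Function.update x j a) ≤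
      C (Function.update (Function.update x i 1) j b) -
        C (Function.update (Function.update x i 1) j a) := by
  have h1 := h.incr (fun k => if k = j then a else if k = i then x i else 0)
    (Function.update (Function.update x i 1) j b) (fun k => by
    by_cases hk : k = j
    · subst hk; simpa
    · by_cases hk' : k = i
      · subst hk'; simp [hk, le_one']
      · simp [hk, hk'])
  rw [vol_red h _ _ {i, j} (fun k hk => by simp_all), sum_powerset_insert (by simpa),
    ← insert_empty_eq, sum_powerset_insert (by simp), sum_powerset_insert (by simp)] at h1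
  simp only [powerset_empty, sum_singleton, insert_empty_eq, mem_singleton, notMem_empty,
    if_false, card_empty, card_singleton, card_pair hij, mem_insert, or_false] at h1
  have e1 : (fun k => if k = j then (if k = j then a else if k = i then x i else 0) else
      Function.update (Function.update x i 1) j b k) =
      Function.update (Function.update x i 1) j a := by
    funext k; by_cases hk : k = j
    · subst hk; simp
    · simp [hk]
  have e2 : (fun k => if k = i then (if k = j then a else if k = i then x i else 0) else
      Function.update (Function.update x i 1) j b k) = Function.update x j b := by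
    funext k; by_cases hk : k = j
    · subst hk; simp [hij.symm]
    · by_cases hk' : k = i
      · subst hk'; simp [hk]
      · simp [hk, hk']
  have e3 : (fun k => if k = i ∨ k = j then (if k = j then a else if k = i then x i else 0) else
      Function.update (Function.update x i 1) j b k) = Function.update x j a := by
    funext k; by_cases hk : k = j
    · subst hk; simp
    · by_cases hk' : k = i
      · subst hk'; simp [hk]
      · simp [hk, hk']
  rw [e1, e2, e3] at h1
  linarith

theorem diff_le (h : IsCopula C) (j : Fin n) (a b : I) (hab : a ≤ b) (S : Finset (Fin n)) :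
    j ∉ S → ∀ x : Fin n → I, (∀ k, k ∉ S → k ≠ j → x k = 1) →
      C (Function.update x j b) - C (Function.update x j a) ≤ b - a := by
  induction S using Finset.induction_on with
  | empty =>
    intro _ x hx
    rw [h.margin _ j (fun k hk => by simp [hk, hx k (by simp) hk]),
      h.margin _ j (fun k hk => by simp [hk, hx k (by simp) hk])]
    simp
  | insert i S hi ih =>
    intro hj x hx
    rw [mem_insert, not_or] at hj
    refine (two_coord h x i j (Ne.symm hj.1) a b hab).trans (ih hj.2 _ (fun k h1 h2 => ?_))
    by_cases hk : k = i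
    · subst hk; simp
    · rw [Function.update_of_ne hk]; exact hx k (by simp [hk, h1]) h2

theorem lip_one (h : IsCopula C) (x : Fin n → I) (j : Fin n) (a b : I) :
    |C (Function.update x j b) - C (Function.update x j a)| ≤ dist b a := by
  have key : ∀ a b : I, a ≤ b → |C (Function.update x j b) - C (Function.update x j a)| ≤ dist b a := by
    intro a b hab
    have h1 := one_coord h x j a b hab
    have h2 := diff_le h j a b hab (univ.erase j) (by simp) x (fun k h1 h2 => by simp_all)
    rw [abs_of_nonneg (by linarith), Subtype.dist_eq, Real.dist_eq]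
    exact h2.trans (le_abs_self _)
  rcases le_total a b with hab | hab
  · exact key a b hab
  · rw [abs_sub_comm, dist_comm]; exact key b a hab

theorem lip (h : IsCopula C) : LipschitzWith n C := by
  refine LipschitzWith.of_dist_le_mul (fun x y => ?_)
  have key : ∀ S : Finset (Fin n), |C (S.piecewise x y) - C y| ≤ S.card * dist x y := by
    intro S
    induction S using Finset.induction_on with
    | empty => simp
    | insert i S hi ih =>
      rw [piecewise_insert, card_insert_of_notMem hi]
      have h1 := lip_one h (S.piecewise x y) i (y i) (x i)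
      have h2 : Function.update (S.piecewise x y) i (y i) = S.piecewise x y := by
        rw [Function.update_eq_self_iff, piecewise_eq_of_notMem _ _ _ hi]
      rw [h2] at h1
      have h3 := dist_le_pi_dist x y i
      have h4 := abs_sub_le (C (Function.update (S.piecewise x y) i (x i))) (C (S.piecewise x y)) (C y)
      push_cast
      linarith
  have := key univ
  rw [piecewise_univ] at this
  simpa [Real.dist_eq] using this

theorem prod_copula : IsCopula (fun x : Fin n → I => ∏ k, (x k : ℝ)) where
  range x := ⟨prod_nonneg (fun k _ => (x k).2.1),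
    prod_le_one (fun k _ => (x k).2.1) (fun k _ => (x k).2.2)⟩
  grounded x k hk := prod_eq_zero (mem_univ k) (by simp [hk])
  margin x k hk := by
    rw [prod_eq_single k (fun j _ hj => by simp [hk j hj]) (by simp)]
  incr u v huv := by
    have h := Finset.prod_add (fun k : Fin n => -(u k : ℝ)) (fun k => (v k : ℝ)) univ
    have h1 : vol (fun x : Fin n → I => ∏ k, (x k : ℝ)) u v = ∏ k, (-(u k : ℝ) + v k) := by
      rw [h, powerset_univ]
      refine sum_congr rfl (fun T _ => ?_)
      rw [prod_neg, mul_assoc]
      congr 1
      simp only [apply_ite (Subtype.val : I → ℝ)]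
      rw [prod_ite]
      congr 2 <;> ext k <;> simp
    rw [h1]
    exact prod_nonneg (fun k _ => by have : (u k : ℝ) ≤ v k := huv k; linarith)

theorem cont_W : Continuous (W : (Fin n → I) → ℝ) := by unfold W; fun_prop

theorem result (n : ℕ) : ∃ C : (Fin n → I) → ℝ, IsCopula C ∧
    (volume {x | C x = W x}).toReal = s n := by
  set R := {r | ∃ A : Set (Fin n → I), MeasurableSet A ∧ (∃ C, IsCopula C ∧ ∀ x ∈ A, C x = W x) ∧
    r = (volume A).toReal} with hR
  have hb : BddAbove R := ⟨1, by
    rintro r ⟨A, -, -, rfl⟩
    exact measureReal_le_one⟩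
  have hne : R.Nonempty := ⟨_, ∅, MeasurableSet.empty, ⟨_, prod_copula, by simp⟩, rfl⟩
  have hseq : ∀ m : ℕ, ∃ (A : Set (Fin n → I)) (C : (Fin n → I) → ℝ), IsCopula C ∧
      (∀ x ∈ A, C x = W x) ∧ s n - 1 / (m + 1) < (volume A).toReal := by
    intro m
    have : sSup R - 1 / (m + 1) < sSup R := by
      have : (0 : ℝ) < 1 / (m + 1) := by positivity
      linarith
    obtain ⟨r, ⟨A, -, ⟨C, h1, h2⟩, rfl⟩, h3⟩ := exists_lt_of_lt_csSup hne this
    exact ⟨A, C, h1, h2, h3⟩
  choose A F hF hA hv using hseq
  let U : Ultrafilter ℕ := Ultrafilter.of atTop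
  have hU : (U : Filter ℕ) ≤ atTop := Ultrafilter.of_le _
  have hlim : ∀ x, ∃ c, Tendsto (fun m => F m x) U (𝓝 c) := fun x => by
    obtain ⟨c, -, hc⟩ := (isCompact_Icc (a := (0 : ℝ)) (b := 1)).ultrafilter_le_nhds
      (U.map (fun m => F m x)) (by
        rw [le_principal_iff]
        exact mem_map.2 (Eventually.of_forall (fun m => (hF m).range x)))
    exact ⟨c, hc⟩
  choose C hC using hlim
  have hCc : IsCopula C := by
    refine ⟨fun x => ⟨ge_of_tendsto' (hC x) (fun m => ((hF m).range x).1),
      le_of_tendsto' (hC x) (fun m => ((hF m).range x).2)⟩, fun x k hk => ?_, fun x k hk => ?_,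
      fun u v huv => ?_⟩
    · refine tendsto_nhds_unique (hC x) ?_
      simp only [fun m => (hF m).grounded x k hk]; exact tendsto_const_nhds
    · refine tendsto_nhds_unique (hC x) ?_
      simp only [fun m => (hF m).margin x k hk]; exact tendsto_const_nhds
    · refine ge_of_tendsto' (f := fun m => vol (F m) u v) (x := (U : Filter ℕ)) ?_
        (fun m => (hF m).incr u v huv)
      exact tendsto_finsetSum _ (fun T _ => (hC _).const_mul _)
  have hun : TendstoUniformly F C U := by
    have := (LipschitzWith.uniformEquicontinuous F n (fun m => lip (hF m))).equicontinuous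
    have h2 := (this.tendsto_uniformFun_iff_pi U C).2 (tendsto_pi_nhds.2 hC)
    exact UniformFun.tendsto_iff_tendstoUniformly.1 h2
  have hcont := (lip hCc).continuous
  have hmeas : MeasurableSet {x | C x = W x} := (isClosed_eq hcont cont_W).measurableSet
  refine ⟨C, hCc, le_antisymm (le_csSup hb ⟨_, hmeas, ⟨C, hCc, fun x hx => hx⟩, rfl⟩) ?_⟩
  let B : ℕ → Set (Fin n → I) := fun j => {x | dist (C x) (W x) ≤ 1 / (j + 1)}
  have hBm : ∀ j, MeasurableSet (B j) := fun j =>
    (isClosed_le (hcont.dist cont_W) continuous_const).measurableSet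
  have hanti : Antitone B := fun i j hij x hx =>
    le_trans (show dist (C x) (W x) ≤ 1 / ((j : ℝ) + 1) from hx) (Nat.one_div_le_one_div hij)
  have hB : ∀ j : ℕ, s n - 1 / (j + 1) ≤ (volume (B j)).toReal := by
    intro j
    have h1 := Metric.tendstoUniformly_iff.1 hun (1 / (j + 1)) (by positivity)
    obtain ⟨m, h2, h3⟩ := (h1.and (hU (eventually_ge_atTop j))).exists
    have h4 : A m ⊆ B j := fun x hx => by
      have := (h2 x).le
      rwa [hA m x hx] at this
    have h5 : (volume (A m)).toReal ≤ (volume (B j)).toReal := measureReal_mono h4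
    have h6 : (1 : ℝ) / (m + 1) ≤ 1 / (j + 1) := Nat.one_div_le_one_div h3
    linarith [hv m]
  have hI : ⋂ j, B j = {x | C x = W x} := by
    ext x
    simp only [Set.mem_iInter, Set.mem_setOf_eq, B]
    refine ⟨fun h => dist_le_zero.1 (ge_of_tendsto' tendsto_one_div_add_atTop_nhds_zero_nat h),
      fun h j => by rw [h, dist_self]; positivity⟩
  have ht := tendsto_measure_iInter_atTop (μ := volume) (fun j => (hBm j).nullMeasurableSet) hanti
    ⟨0, measure_ne_top _ _⟩
  rw [hI] at ht
  have ht2 := (ENNReal.tendsto_toReal (measure_ne_top _ _)).comp ht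
  have ht3 : Tendsto (fun j : ℕ => s n - 1 / ((j : ℝ) + 1)) atTop (𝓝 (s n - 0)) :=
    tendsto_const_nhds.sub tendsto_one_div_add_atTop_nhds_zero_nat
  rw [sub_zero] at ht3
  exact le_of_tendsto_of_tendsto' ht3 ht2 hB

end Pool.Agent.Results.MP_2d7e0f_pr.Attained
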